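import Pool.Agent.H39.VQ.Targets

/-!
Module CE of vq_modules: the constants.
-/

set_option autoImplicit false

open Finset

namespace Pool.Agent.H55.VQ

open Pool.Agent.H11.CV Pool.Agent.H39.VQ

theorem pf_CE : V_CE := by
  intro p A B hp
  set K : ℕ := (B + 1) + 8 * (B + 2) + 16 + 4 + (4 * (A + 14) + 8 + 3 * p) with hK
  have hl2 : 0 < Real.log 2 := Real.log_pos (by norm_num)
  refine ⟨K * (7 / Real.log 2), by positivity, fun n k M I θ hkn hM hI hθ => ?_⟩
  set x : ℝ := (n : ℝ) + 2 with hx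
  have hn0 : (0 : ℝ) ≤ n := Nat.cast_nonneg n
  have hx2 : 2 ≤ x := by linarith
  have hx0 : 0 < x := by linarith
  have hx1 : 1 ≤ x := by linarith
  have hknR : (k : ℝ) ≤ n := by exact_mod_cast hkn
  have hk1 : (k : ℝ) + 1 ≤ x := by linarith
  have hk0 : (0 : ℝ) ≤ k := Nat.cast_nonneg k
  have hθ0 : 0 < θ := lt_of_lt_of_le (by positivity) hθ
  have htwo : ∀ j : ℕ, (2 : ℝ) ^ j ≤ x ^ j := fun j => pow_le_pow_left₀ (by norm_num) hx2 j
  have hnat : ∀ j : ℕ, (j : ℝ) ≤ x ^ j := fun j => by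
    refine le_trans ?_ (htwo j)
    exact_mod_cast (Nat.lt_two_pow_self (n := j)).le
  have h2M : (2 : ℝ) ^ M ≤ x ^ 6 := by
    calc (2 : ℝ) ^ M ≤ 2 ^ (2 * Nat.log 2 (k + 1) + 4) :=
          pow_le_pow_right₀ (by norm_num) hM
      _ = ((2 : ℝ) ^ (Nat.log 2 (k + 1))) ^ 2 * 2 ^ 4 := by
          rw [pow_add, mul_comm 2 (Nat.log 2 (k + 1)), pow_mul]
      _ ≤ x ^ 2 * x ^ 4 := by
          apply mul_le_mul _ (htwo 4) (by positivity) (by positivity)
          apply pow_le_pow_left₀ (by positivity)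
          refine le_trans ?_ hk1
          have := Nat.pow_log_le_self 2 (show k + 1 ≠ 0 by omega)
          exact_mod_cast this
      _ = x ^ 6 := by ring
  have hIx : (I : ℝ) ≤ x ^ (B + 1) := by
    calc (I : ℝ) ≤ B * ((n : ℝ) + 1) := by exact_mod_cast hI
      _ ≤ x ^ B * x := by
          apply mul_le_mul (hnat B) (by linarith) (by positivity) (by positivity)
      _ = x ^ (B + 1) := by rw [pow_succ]
  have hI0 : (0 : ℝ) ≤ I := Nat.cast_nonneg I
  have h2I : 2 * (I : ℝ) ≤ x ^ (B + 2) := by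
    calc 2 * (I : ℝ) ≤ x * x ^ (B + 1) := mul_le_mul hx2 hIx hI0 (by positivity)
      _ = x ^ (B + 2) := by ring
  have hA1 : (I : ℝ) ^ (M + 1) ≤ x ^ ((B + 1) * (M + 1)) := by
    rw [pow_mul]
    exact pow_le_pow_left₀ hI0 hIx _
  have hA2 : (4 * (2 * (I : ℝ)) ^ (M + 1)) ^ 8 ≤ x ^ (8 * ((B + 2) * (M + 1) + 2)) := by
    rw [mul_comm 8, pow_mul]
    apply pow_le_pow_left₀ (by positivity)
    calc 4 * (2 * (I : ℝ)) ^ (M + 1) ≤ x ^ 2 * (x ^ (B + 2)) ^ (M + 1) := by
          apply mul_le_mul _ (pow_le_pow_left₀ (by positivity) h2I _) (by positivity)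
            (by positivity)
          have := htwo 2
          linarith
      _ = x ^ ((B + 2) * (M + 1) + 2) := by
          rw [← pow_mul, ← pow_add]
          congr 1
          ring
  have hθi : θ⁻¹ ≤ x ^ A := by
    rw [inv_le_comm₀ hθ0 (by positivity)]
    exact hθ
  have hA3 : 2 ^ M / (θ / 2 ^ (M + 2)) ≤ x ^ (A + 14) := by
    have e : (2 : ℝ) ^ M / (θ / 2 ^ (M + 2)) = 2 ^ 2 * (2 ^ M) ^ 2 * θ⁻¹ := by
      field_simp
      ring
    rw [e]
    calc (2 : ℝ) ^ 2 * (2 ^ M) ^ 2 * θ⁻¹ ≤ x ^ 2 * (x ^ 6) ^ 2 * x ^ A := by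
          apply mul_le_mul _ hθi (by positivity) (by positivity)
          exact mul_le_mul (htwo 2) (pow_le_pow_left₀ (by positivity) h2M 2) (by positivity)
            (by positivity)
      _ = x ^ (A + 14) := by ring
  have hA4 : 64 * ((k : ℝ) + 1) ^ 2 * (p : ℝ) ^ 3 ≤ x ^ (8 + 3 * p) := by
    calc 64 * ((k : ℝ) + 1) ^ 2 * (p : ℝ) ^ 3 ≤ x ^ 6 * x ^ 2 * (x ^ p) ^ 3 := by
          apply mul_le_mul _ (pow_le_pow_left₀ (by positivity) (hnat p) 3) (by positivity)
            (by positivity)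
          apply mul_le_mul _ (pow_le_pow_left₀ (by positivity) hk1 2) (by positivity)
            (by positivity)
          have := htwo 6
          linarith
      _ = x ^ (8 + 3 * p) := by ring
  have hA5 : ((2 ^ M / (θ / 2 ^ (M + 2))) ^ 4 * (64 * ((k : ℝ) + 1) ^ 2 * (p : ℝ) ^ 3)) ^ M ≤
      x ^ ((4 * (A + 14) + 8 + 3 * p) * M) := by
    rw [pow_mul]
    apply pow_le_pow_left₀ (by positivity)
    calc (2 ^ M / (θ / 2 ^ (M + 2))) ^ 4 * (64 * ((k : ℝ) + 1) ^ 2 * (p : ℝ) ^ 3) ≤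
          (x ^ (A + 14)) ^ 4 * x ^ (8 + 3 * p) :=
          mul_le_mul (pow_le_pow_left₀ (by positivity) hA3 4) hA4 (by positivity) (by positivity)
      _ = x ^ (4 * (A + 14) + 8 + 3 * p) := by ring
  have hE : (I : ℝ) ^ (M + 1) * (4 * (2 * (I : ℝ)) ^ (M + 1)) ^ 8 *
        (16 * ((2 ^ M / (θ / 2 ^ (M + 2))) ^ 4 *
          (64 * ((k : ℝ) + 1) ^ 2 * (p : ℝ) ^ 3)) ^ M) ≤ x ^ (K * (M + 1)) := by
    calc _ ≤ x ^ ((B + 1) * (M + 1)) * x ^ (8 * ((B + 2) * (M + 1) + 2)) *
          (x ^ 4 * x ^ ((4 * (A + 14) + 8 + 3 * p) * M)) := by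
          apply mul_le_mul (mul_le_mul hA1 hA2 (by positivity) (by positivity)) _ (by positivity)
            (by positivity)
          apply mul_le_mul _ hA5 (by positivity) (by positivity)
          have := htwo 4
          linarith
      _ = x ^ ((B + 1) * (M + 1) + 8 * ((B + 2) * (M + 1) + 2) +
            (4 + (4 * (A + 14) + 8 + 3 * p) * M)) := by
          rw [← pow_add, ← pow_add, ← pow_add]
      _ ≤ x ^ (K * (M + 1)) := by
          apply pow_le_pow_right₀ hx1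
          rw [hK]
          nlinarith [Nat.zero_le M, Nat.zero_le (M * p), Nat.zero_le (M * A), Nat.zero_le (M * B)]
  refine hE.trans ?_
  have hL0 : Real.log 2 ≤ Real.log x := Real.log_le_log (by norm_num) hx2
  have hM1 : ((M : ℝ) + 1) ≤ 7 / Real.log 2 * Real.log x := by
    have h1 : (M : ℝ) ≤ 2 * (Nat.log 2 (k + 1) : ℝ) + 4 := by exact_mod_cast hM
    have h2 : (Nat.log 2 (k + 1) : ℝ) * Real.log 2 ≤ Real.log x := by
      rw [← Real.log_pow]
      apply Real.log_le_log (by positivity)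
      refine le_trans ?_ hk1
      have := Nat.pow_log_le_self 2 (show k + 1 ≠ 0 by omega)
      exact_mod_cast this
    rw [div_mul_eq_mul_div, le_div_iff₀ hl2]
    nlinarith
  calc x ^ (K * (M + 1)) = Real.exp (Real.log x * ((K * (M + 1) : ℕ) : ℝ)) := by
        rw [← Real.rpow_natCast, Real.rpow_def_of_pos hx0]
    _ ≤ Real.exp (K * (7 / Real.log 2) * Real.log x ^ 2) := by
        apply Real.exp_le_exp.mpr
        push_cast
        have hLx : 0 ≤ Real.log x := by linarith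
        have h3 : (K : ℝ) * Real.log x * ((M : ℝ) + 1) ≤
            (K : ℝ) * Real.log x * (7 / Real.log 2 * Real.log x) :=
          mul_le_mul_of_nonneg_left hM1 (by positivity)
        calc Real.log x * ((K : ℝ) * ((M : ℝ) + 1)) = (K : ℝ) * Real.log x * ((M : ℝ) + 1) := by
              ring
          _ ≤ _ := h3
          _ = K * (7 / Real.log 2) * Real.log x ^ 2 := by ring

end Pool.Agent.H55.VQ
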