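import Pool.Agent.H39.VQ.Targets

/-!
Module TI of vq_modules: pigeonholing.
-/

set_option autoImplicit false

open Finset

namespace Pool.Agent.H55.VQ

open Pool.Agent.H11.CV Pool.Agent.H39.VQ

/-- dyadic decomposition of a number -/
private lemma dy {E : Type} [AddCommMonoid E] (Λ t : ℝ) (x : E) (hΛ : 0 < Λ) (I : ℕ)
    (ht : t < 2 ^ I * Λ) :
    ∑ i ∈ range I, (if 2 ^ i * Λ ≤ t ∧ t < 2 * (2 ^ i * Λ) then x else 0) =
      if Λ ≤ t then x else 0 := by
  induction I with
  | zero =>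
    rw [range_zero, sum_empty, if_neg]
    rw [pow_zero, one_mul] at ht
    linarith
  | succ I ih =>
    rw [sum_range_succ]
    by_cases h : t < 2 ^ I * Λ
    · rw [ih h, if_neg (c := 2 ^ I * Λ ≤ t ∧ _) (by
        intro h'
        linarith [h'.1]), add_zero]
    · have h1 : 2 ^ I * Λ ≤ t := not_lt.mp h
      have h2 : t < 2 * (2 ^ I * Λ) := by
        rw [pow_succ] at ht
        linarith
      rw [if_pos ⟨h1, h2⟩, Finset.sum_eq_zero, zero_add, if_pos]
      · have : (1 : ℝ) ≤ 2 ^ I := one_le_pow₀ (by norm_num)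
        nlinarith
      · intro i hi
        rw [if_neg]
        intro h'
        have h3 : (2 : ℝ) ^ (i + 1) ≤ 2 ^ I :=
          pow_le_pow_right₀ (by norm_num) (mem_range.mp hi)
        have h4 : (2 : ℝ) ^ (i + 1) * Λ ≤ 2 ^ I * Λ := mul_le_mul_of_nonneg_right h3 hΛ.le
        rw [pow_succ] at h4
        linarith [h'.2]

/-- the pigeonhole lemma -/
private lemma pig (I : ℕ) (hI : 1 ≤ I) (H : ℕ → ℂ) (N : ℕ → ℝ) (θ Y : ℝ) (hθ : 0 ≤ θ)
    (hY : 0 < Y) (hN : ∀ i ∈ range I, 0 ≤ N i)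
    (h1 : θ * ∑ i ∈ range I, N i ≤ ‖∑ i ∈ range I, H i‖) (h2 : Y ≤ ‖∑ i ∈ range I, H i‖) :
    ∃ i, i < I ∧ θ / 2 * N i ≤ ‖H i‖ ∧ Y / (2 * I) ≤ ‖H i‖ := by
  by_contra hcon
  push Not at hcon
  have hI0 : (0 : ℝ) < I := by exact_mod_cast hI
  have hlt : ∀ i ∈ range I, ‖H i‖ < θ / 2 * N i + Y / (2 * I) := by
    intro i hi
    have hn : 0 ≤ θ / 2 * N i := mul_nonneg (by linarith) (hN i hi)
    have hy : 0 < Y / (2 * I) := by positivity
    rcases lt_or_ge ‖H i‖ (θ / 2 * N i) with h | h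
    · linarith
    · have := hcon i (mem_range.mp hi) h
      linarith
  have hsum : ∑ i ∈ range I, ‖H i‖ < ∑ i ∈ range I, (θ / 2 * N i + Y / (2 * I)) :=
    Finset.sum_lt_sum_of_nonempty ⟨0, mem_range.mpr hI⟩ hlt
  rw [sum_add_distrib, ← mul_sum, sum_const, card_range, nsmul_eq_mul] at hsum
  have e : (I : ℝ) * (Y / (2 * I)) = Y / 2 := by field_simp
  rw [e] at hsum
  have := norm_sum_le (range I) H
  linarith

private lemma lv_zero (k : ℕ) : lv k 0 = k := by simp [lv]

private lemma lv_succ_le (k m : ℕ) : lv k (m + 1) ≤ lv k m := by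
  unfold lv
  have := Nat.fib_mono (show m + 2 ≤ m + 1 + 2 by omega)
  omega

section
variable {G : Type} [AddCommGroup G]

private lemma cn_congr (p k : ℕ) (lam lam' : ℕ → ℝ) (w : ℕ → G → ℝ) (δ : ℕ → G → ℂ) (m : ℕ)
    (h : ∀ r, r ≤ m → lam r = lam' r) :
    (∀ ξ g, cn p k lam w m ξ g = cn p k lam' w m ξ g) ∧
      ∀ ξ g, hn p k lam w δ m ξ g = hn p k lam' w δ m ξ g := by
  induction m with
  | zero =>
    constructor
    · intro ξ g
      simp only [cn, h 0 le_rfl]
    · intro ξ g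
      simp only [hn, h 0 le_rfl]
  | succ m ih =>
    obtain ⟨ih1, ih2⟩ := ih fun r hr => h r (by omega)
    constructor
    · intro ξ g
      simp only [cn, h (m + 1) le_rfl, ih1]
    · intro ξ g
      simp only [hn, h (m + 1) le_rfl, ih1, ih2]

private lemma basic (hRS : T_RS) (p k : ℕ) (lam : ℕ → ℝ) (w : ℕ → G → ℝ) (δ : ℕ → G → ℂ) (g : G)
    (hp : 1 < p) (hw : ∀ ξ : ℕ, ξ < p ^ k → 0 ≤ w ξ g ∧ ‖δ ξ g‖ ≤ w ξ g) (m : ℕ) :
    ∀ ξ, ξ < p ^ (lv k m) → 0 ≤ cn p k lam w m ξ g ∧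
      ‖hn p k lam w δ m ξ g‖ ≤ cn p k lam w m ξ g := by
  induction m with
  | zero =>
    intro ξ hξ
    rw [lv_zero] at hξ
    simp only [cn, hn]
    split_ifs
    · exact hw ξ hξ
    · simp
  | succ m ih =>
    intro ξ hξ
    have hab : lv k (m + 1) + (lv k m - lv k (m + 1)) = lv k m := by
      have := lv_succ_le k m
      omega
    have hch : ∀ z, z < p ^ (lv k m - lv k (m + 1)) →
        ξ + p ^ (lv k (m + 1)) * z < p ^ (lv k m) := by
      intro z hz
      have := (hRS p (lv k (m + 1)) (lv k m - lv k (m + 1)) hp).2.1 ξ z hξ hz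
      rw [hab] at this
      exact this
    simp only [cn, hn]
    split_ifs
    · constructor
      · exact sum_nonneg fun z hz => (ih _ (hch z (mem_range.mp hz))).1
      · exact (norm_sum_le _ _).trans
          (sum_le_sum fun z hz => (ih _ (hch z (mem_range.mp hz))).2)
    · simp

private lemma mass (hRS : T_RS) (p k : ℕ) (lam : ℕ → ℝ) (w : ℕ → G → ℝ) (δ : ℕ → G → ℂ) (g : G)
    (hp : 1 < p) (hw : ∀ ξ : ℕ, ξ < p ^ k → 0 ≤ w ξ g ∧ ‖δ ξ g‖ ≤ w ξ g) (m : ℕ) :
    ∑ ξ ∈ range (p ^ (lv k m)), cn p k lam w m ξ g ≤ ∑ ξ ∈ range (p ^ k), w ξ g := by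
  induction m with
  | zero =>
    rw [lv_zero]
    refine sum_le_sum fun ξ hξ => ?_
    simp only [cn]
    split_ifs
    · exact le_rfl
    · exact (hw ξ (mem_range.mp hξ)).1
  | succ m ih =>
    refine le_trans ?_ ih
    have hab : lv k (m + 1) + (lv k m - lv k (m + 1)) = lv k m := by
      have := lv_succ_le k m
      omega
    have hre := (hRS p (lv k (m + 1)) (lv k m - lv k (m + 1)) hp).1 ℝ
      (fun ξ => cn p k lam w m ξ g)
    rw [hab] at hre
    rw [hre]
    refine sum_le_sum fun ξ hξ => ?_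
    have hch : ∀ z, z < p ^ (lv k m - lv k (m + 1)) →
        ξ + p ^ (lv k (m + 1)) * z < p ^ (lv k m) := by
      intro z hz
      have := (hRS p (lv k (m + 1)) (lv k m - lv k (m + 1)) hp).2.1 ξ z (mem_range.mp hξ) hz
      rw [hab] at this
      exact this
    have h0 : 0 ≤ ∑ z ∈ range (p ^ (lv k m - lv k (m + 1))),
        cn p k lam w m (ξ + p ^ (lv k (m + 1)) * z) g :=
      sum_nonneg fun z hz => (basic hRS p k lam w δ g hp hw m _ (hch z (mem_range.mp hz))).1
    simp only [cn]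
    split_ifs
    · exact le_rfl
    · exact h0

private lemma cn_ge (p k : ℕ) (lam : ℕ → ℝ) (w : ℕ → G → ℝ) (m ξ : ℕ) (g : G)
    (h : cn p k lam w m ξ g ≠ 0) : lam m ≤ cn p k lam w m ξ g := by
  cases m with
  | zero =>
    simp only [cn] at h ⊢
    split_ifs at h ⊢ with h1
    · exact h1.1
    · exact absurd rfl h
  | succ m =>
    simp only [cn] at h ⊢
    split_ifs at h ⊢ with h1
    · exact h1.1
    · exact absurd rfl h

end

theorem pf_TI (hRS : T_RS) : V_TI := by
  intro p k I G _ w δ g Λ θ Y hp hI hΛ hY hθ hw hΛY hW hYD hθD m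
  have hI0 : (0 : ℝ) < I := by exact_mod_cast hI
  have hpw : ∀ j : ℕ, Λ ≤ 2 ^ j * Λ := fun j => by
    have : (1 : ℝ) ≤ 2 ^ j := one_le_pow₀ (by norm_num)
    nlinarith
  induction m with
  | zero =>
    -- the functions of the first step
    set H : ℕ → ℂ := fun i => ∑ ξ ∈ range (p ^ k),
      (if 2 ^ i * Λ ≤ w ξ g ∧ w ξ g < 2 * (2 ^ i * Λ) then δ ξ g else 0) with hH
    set N : ℕ → ℝ := fun i => ∑ ξ ∈ range (p ^ k),
      (if 2 ^ i * Λ ≤ w ξ g ∧ w ξ g < 2 * (2 ^ i * Λ) then w ξ g else 0) with hN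
    have hwlt : ∀ ξ ∈ range (p ^ k), w ξ g < 2 ^ I * Λ := fun ξ hξ =>
      lt_of_le_of_lt (single_le_sum (f := fun ξ => w ξ g)
        (fun x hx => (hw x (mem_range.mp hx)).1) hξ) hW
    have hsH : ∑ i ∈ range I, H i = ∑ ξ ∈ range (p ^ k), (if Λ ≤ w ξ g then δ ξ g else 0) := by
      rw [hH, sum_comm]
      exact sum_congr rfl fun ξ hξ => dy Λ (w ξ g) (δ ξ g) hΛ I (hwlt ξ hξ)
    have hsN : ∑ i ∈ range I, N i = ∑ ξ ∈ range (p ^ k), (if Λ ≤ w ξ g then w ξ g else 0) := by
      rw [hN, sum_comm]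
      exact sum_congr rfl fun ξ hξ => dy Λ (w ξ g) (w ξ g) hΛ I (hwlt ξ hξ)
    have hsNle : ∑ i ∈ range I, N i ≤ ∑ ξ ∈ range (p ^ k), w ξ g := by
      rw [hsN]
      refine sum_le_sum fun ξ hξ => ?_
      split_ifs
      · exact le_rfl
      · exact (hw ξ (mem_range.mp hξ)).1
    have hdiff : ‖∑ ξ ∈ range (p ^ k), δ ξ g - ∑ i ∈ range I, H i‖ ≤ Y / 4 := by
      rw [hsH, ← sum_sub_distrib]
      refine (norm_sum_le _ _).trans (le_trans (sum_le_sum (g := fun _ => Λ) fun ξ hξ => ?_) ?_)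
      · split_ifs with h
        · rw [sub_self, norm_zero]
          exact hΛ.le
        · rw [sub_zero]
          exact (hw ξ (mem_range.mp hξ)).2.trans (not_le.mp h).le
      · rw [sum_const, card_range, nsmul_eq_mul]
        push_cast
        exact hΛY
    have hnorm : ‖∑ ξ ∈ range (p ^ k), δ ξ g‖ - Y / 4 ≤ ‖∑ i ∈ range I, H i‖ := by
      have := norm_sub_norm_le (∑ ξ ∈ range (p ^ k), δ ξ g) (∑ i ∈ range I, H i)
      linarith
    have hN0 : ∀ i ∈ range I, 0 ≤ N i := fun i _ => sum_nonneg fun ξ hξ => by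
      split_ifs
      · exact (hw ξ (mem_range.mp hξ)).1
      · exact le_rfl
    obtain ⟨i, hi, h1, h2⟩ := pig I hI H N (3 / 4 * θ) (3 / 4 * Y) (by positivity)
      (by positivity) hN0 (by
        have h3 : θ * ∑ i ∈ range I, N i ≤ θ * ∑ ξ ∈ range (p ^ k), w ξ g :=
          mul_le_mul_of_nonneg_left hsNle hθ
        linarith) (by linarith)
    have eH : ∑ ξ ∈ range (p ^ (lv k 0)),
        hn p k (fun r => 2 ^ (if r = 0 then i else 0) * Λ) w δ 0 ξ g = H i := by
      rw [lv_zero, hH]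
      refine sum_congr rfl fun ξ _ => ?_
      simp only [hn, if_true]
    have eN : ∑ ξ ∈ range (p ^ (lv k 0)),
        cn p k (fun r => 2 ^ (if r = 0 then i else 0) * Λ) w 0 ξ g = N i := by
      rw [lv_zero, hN]
      refine sum_congr rfl fun ξ _ => ?_
      simp only [cn, if_true]
    refine ⟨fun r => if r = 0 then i else 0, ?_, ?_, ?_, ?_⟩
    · intro r
      dsimp only
      split_ifs
      · exact hi
      · exact hI
    · intro r hr
      dsimp only
      rw [if_neg (by omega)]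
    · rw [eH]
      refine le_trans ?_ h2
      rw [zero_add, pow_one, div_le_div_iff₀ (by positivity) (by positivity)]
      nlinarith [mul_pos hY hI0]
    · rw [eH, eN]
      refine le_trans ?_ h1
      have := mul_nonneg hθ (hN0 i (mem_range.mpr hi))
      norm_num
      linarith
  | succ m ih =>
    obtain ⟨i, hi1, hi2, hi3, hi4⟩ := ih
    set lam : ℕ → ℝ := fun r => 2 ^ (i r) * Λ with hlam
    have hab : lv k (m + 1) + (lv k m - lv k (m + 1)) = lv k m := by
      have := lv_succ_le k m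
      omega
    set a := lv k (m + 1) with ha
    set b := lv k m - a with hb
    set Sη : ℕ → ℝ := fun η => ∑ z ∈ range (p ^ b), cn p k lam w m (η + p ^ a * z) g with hS
    set Tη : ℕ → ℂ := fun η => ∑ z ∈ range (p ^ b), hn p k lam w δ m (η + p ^ a * z) g with hT
    have hch : ∀ η z, η < p ^ a → z < p ^ b → η + p ^ a * z < p ^ (lv k m) := by
      intro η z hη hz
      have := (hRS p a b hp).2.1 η z hη hz
      rw [hab] at this
      exact this
    have hS0 : ∀ η ∈ range (p ^ a), 0 ≤ Sη η := fun η hη => sum_nonneg fun z hz =>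
      (basic hRS p k lam w δ g hp hw m _ (hch η z (mem_range.mp hη) (mem_range.mp hz))).1
    have hreC := (hRS p a b hp).1 ℝ (fun ξ => cn p k lam w m ξ g)
    have hreH := (hRS p a b hp).1 ℂ (fun ξ => hn p k lam w δ m ξ g)
    rw [hab] at hreC hreH
    have hSlt : ∀ η ∈ range (p ^ a), Sη η < 2 ^ I * Λ := fun η hη => by
      have h1 : Sη η ≤ ∑ η ∈ range (p ^ a), Sη η := single_le_sum (f := Sη) hS0 hη
      have h2 := mass hRS p k lam w δ g hp hw m
      rw [hreC] at h2
      exact lt_of_le_of_lt (h1.trans h2) hW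
    have hsmall : ∀ η ∈ range (p ^ a), ¬ Λ ≤ Sη η → Sη η = 0 ∧ Tη η = 0 := by
      intro η hη hlt
      have h1 : ∀ z ∈ range (p ^ b), cn p k lam w m (η + p ^ a * z) g = 0 := by
        intro z hz
        by_contra hne
        have h2 := cn_ge p k lam w m _ g hne
        have h3 : cn p k lam w m (η + p ^ a * z) g ≤ Sη η :=
          single_le_sum (f := fun z => cn p k lam w m (η + p ^ a * z) g)
            (fun z hz => (basic hRS p k lam w δ g hp hw m _
              (hch η z (mem_range.mp hη) (mem_range.mp hz))).1) hz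
        have h4 : Λ ≤ lam m := hpw (i m)
        exact hlt (by linarith)
      refine ⟨sum_eq_zero h1, sum_eq_zero fun z hz => ?_⟩
      have h2 := (basic hRS p k lam w δ g hp hw m _
        (hch η z (mem_range.mp hη) (mem_range.mp hz))).2
      rw [h1 z hz] at h2
      exact norm_le_zero_iff.mp h2
    set H : ℕ → ℂ := fun i' => ∑ η ∈ range (p ^ a),
      (if 2 ^ i' * Λ ≤ Sη η ∧ Sη η < 2 * (2 ^ i' * Λ) then Tη η else 0) with hH
    set N : ℕ → ℝ := fun i' => ∑ η ∈ range (p ^ a),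
      (if 2 ^ i' * Λ ≤ Sη η ∧ Sη η < 2 * (2 ^ i' * Λ) then Sη η else 0) with hN
    have hsH : ∑ i' ∈ range I, H i' = ∑ ξ ∈ range (p ^ (lv k m)), hn p k lam w δ m ξ g := by
      rw [hH, sum_comm, hreH]
      refine sum_congr rfl fun η hη => ?_
      rw [dy Λ (Sη η) (Tη η) hΛ I (hSlt η hη)]
      split_ifs with h
      · rfl
      · exact (hsmall η hη h).2.symm
    have hsN : ∑ i' ∈ range I, N i' = ∑ ξ ∈ range (p ^ (lv k m)), cn p k lam w m ξ g := by
      rw [hN, sum_comm, hreC]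
      refine sum_congr rfl fun η hη => ?_
      rw [dy Λ (Sη η) (Sη η) hΛ I (hSlt η hη)]
      split_ifs with h
      · rfl
      · exact (hsmall η hη h).1.symm
    have hN0 : ∀ i ∈ range I, 0 ≤ N i := fun i _ => sum_nonneg fun η hη => by
      split_ifs
      · exact hS0 η hη
      · exact le_rfl
    obtain ⟨i', hi', h1, h2⟩ := pig I hI H N (θ / 2 ^ (m + 2)) (Y / (2 * (2 * (I : ℝ)) ^ (m + 1)))
      (by positivity) (by positivity) hN0 (by rw [hsH, hsN]; exact hi4) (by rw [hsH]; exact hi3)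
    set j : ℕ → ℕ := fun r => if r = m + 1 then i' else i r with hj
    have hjlam : ∀ r, r ≤ m → (fun r => 2 ^ (j r) * Λ : ℕ → ℝ) r = lam r := by
      intro r hr
      simp only [hj, hlam, if_neg (show r ≠ m + 1 by omega)]
    obtain ⟨c1, c2⟩ := cn_congr p k (fun r => 2 ^ (j r) * Λ) lam w δ m hjlam
    have hjm : j (m + 1) = i' := by simp only [hj, if_true]
    have eH : ∑ ξ ∈ range (p ^ (lv k (m + 1))),
        hn p k (fun r => 2 ^ (j r) * Λ) w δ (m + 1) ξ g = H i' := by
      rw [hH]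
      refine sum_congr rfl fun ξ _ => ?_
      simp only [hn, c1, c2, hjm]
      rfl
    have eN : ∑ ξ ∈ range (p ^ (lv k (m + 1))),
        cn p k (fun r => 2 ^ (j r) * Λ) w (m + 1) ξ g = N i' := by
      rw [hN]
      refine sum_congr rfl fun ξ _ => ?_
      simp only [cn, c1, hjm]
      rfl
    refine ⟨j, ?_, ?_, ?_, ?_⟩
    · intro r
      simp only [hj]
      split_ifs
      · exact hi'
      · exact hi1 r
    · intro r hr
      simp only [hj]
      rw [if_neg (by omega)]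
      exact hi2 r (by omega)
    · rw [eH]
      refine le_trans (le_of_eq ?_) h2
      rw [div_div]
      congr 1
      ring
    · rw [eH, eN]
      refine le_trans (le_of_eq ?_) h1
      rw [show m + 1 + 2 = (m + 2) + 1 by ring, pow_succ (2 : ℝ) (m + 2)]
      ring

end Pool.Agent.H55.VQ
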